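import Pool.Agent.Helper40.KZ.Stmts
import Pool.Agent.Helper98.JZ.EQA
import Pool.Agent.Helper60.JZ.TCH

/-! Row EQA5: all orbits of all powers of the skew product are equidistributed
(after helper98's proof of the row EQA). -/

open Finset Filter MeasureTheory Topology
open scoped ComplexConjugate

namespace Pool.Agent.Helper60.K5

open Pool.Agent.Helper16.AZ (T mm Ind)
open Pool.Agent.Helper40.JZ (U cs chi tch_c)
open Pool.Agent.Helper40.KZ
open Pool.Agent.Helper98.JZ (cs_mul continuous_cs four_add')
open UnitAddTorus (mFourier)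

/-- a character at a point of the product -/
theorem mF_sn {r s : ℕ} (Y : Fin (r + s) → ℤ) (x : T r) (k : T s) :
    mFourier Y (sn x k) = mFourier (fun i => Y (Fin.castAdd s i)) x *
      mFourier (fun j => Y (Fin.natAdd r j)) k := by
  show ∏ i, fourier (Y i) (sn x k i) = (∏ i, fourier (Y (Fin.castAdd s i)) (x i)) *
    ∏ j, fourier (Y (Fin.natAdd r j)) (k j)
  rw [Fin.prod_univ_add]
  simp [sn]

theorem mF_chi {s : ℕ} (b : Fin s → ℤ) (k : T s) : (mFourier b k : ℂ) = fourier 1 (chi b k) := by
  rw [tch_c b k 1, one_smul]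

theorem mF_add {s : ℕ} (b : Fin s → ℤ) (k k' : T s) :
    (mFourier b (k + k') : ℂ) = mFourier b k * mFourier b k' := by
  rw [mF_chi, mF_chi, mF_chi, chi_add, four_add']

/-- the value of a character along the orbit -/
theorem mF_orbit {r s : ℕ} (θ : T r) (f : T r → T s) (p n : ℕ) (Y : Fin (r + s) → ℤ) (x : T r)
    (k : T s) : mFourier Y ((SA θ f)^[p * n] (sn x k)) =
      mFourier (fun j => Y (Fin.natAdd r j)) k *
      (fourier 1 (cs (p • θ) (fun z => cs θ (fa f (fun j => Y (Fin.natAdd r j))) p z) n x) *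
        mFourier (fun i => Y (Fin.castAdd s i)) (x + n • (p • θ))) := by
  rw [SA_iterate, mF_sn, mF_add (fun j => Y (Fin.natAdd r j)) k, mF_chi _ (cv θ f (p * n) x),
    chi_cv, cs_mul, mul_nsmul]
  ring

end Pool.Agent.Helper60.K5

namespace Pool.Agent.Helper40.KZ

open Pool.Agent.Helper16.AZ (T mm Ind)
open Pool.Agent.Helper16.BZ (EQ aeq_int aeq_zero aeq_norm aeq_add)
open Pool.Agent.Helper40.JZ (U cs chi)
open Pool.Agent.Helper98.JZ (eq_of_char continuous_cs)
open Pool.Agent.Helper60.K5
open UnitAddTorus (mFourier)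

/-- EQA -/
theorem st_EQA5 (hERG : Pool.Agent.Helper40.JZ.ST_ERG) (hPOW : Pool.Agent.Helper40.JZ.ST_POW)
    (hCOB : Pool.Agent.Helper40.JZ.ST_COB) : ST_EQA5 := by
  intro r s θ f hθ hf hN p hp F hF y₀
  refine eq_of_char (fun Y hY y => ?_) F hF y₀
  rw [← sn_ini_las y]
  set x := ini y
  set k := las y
  simp only [mF_orbit, ← Finset.mul_sum]
  set a : Fin s → ℤ := fun j => Y (Fin.natAdd r j) with ha
  set X : Fin r → ℤ := fun i => Y (Fin.castAdd s i) with hX
  have hβ : Ind (p • θ) := (hERG r θ hθ).1 p hp
  have hl : Continuous fun z => cs θ (fa f a) p z := continuous_cs θ (continuous_fa hf a) p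
  have hg : Continuous fun z : T r => mFourier X z := (mFourier X).continuous
  have hC := hCOB r (p • θ) hβ (fun z => cs θ (fa f a) p z) (fun z => mFourier X z) x hl hg
  have key : Tendsto (fun M : ℕ => (∑ n ∈ range M, fourier 1
      (cs (p • θ) (fun z => cs θ (fa f a) p z) n x) * mFourier X (x + n • (p • θ))) / (M : ℂ))
      atTop (𝓝 0) := by
    by_cases h0 : a = 0
    · have hX0 : X ≠ 0 := by
        intro h1
        apply hY
        funext i
        refine Fin.addCases (fun j => ?_) (fun j => ?_) i
        · exact congrFun h1 j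
        · exact congrFun h0 j
      have hfa0 : ∀ z : T r, cs θ (fa f a) p z = 0 := by
        intro z
        unfold cs
        refine Finset.sum_eq_zero fun j _ => ?_
        rw [h0]
        simp [fa, chi]
      have h2 := hC.2 (fun _ => 0) measurable_const (Eventually.of_forall fun z => by
        show (0 : U) = cs θ (fa f a) p z + 0
        rw [hfa0, add_zero])
      have h3 : ∫ z, (fourier 1 ((0 : U)) : ℂ) * mFourier X z ∂(mm r) = 0 := by
        rw [integral_const_mul, aeq_int X hX0, mul_zero]
      simp only [h3, norm_zero, zero_add] at h2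
      rw [Metric.tendsto_atTop]
      intro ε hε
      have h4 := h2 (ε / 2) (by positivity)
      obtain ⟨N₀, hN₀⟩ := eventually_atTop.1 h4
      refine ⟨N₀, fun M hM => ?_⟩
      rw [dist_eq_norm, sub_zero, norm_div, Complex.norm_natCast]
      rcases Nat.eq_zero_or_pos M with hM0 | hM0
      · subst hM0
        simpa using hε
      · have hM1 : (0 : ℝ) < M := by exact_mod_cast hM0
        rw [div_lt_iff₀ hM1]
        have h5 := hN₀ M hM
        nlinarith
    · refine hC.1 fun u hu h1 => ?_
      obtain ⟨ω, hω, h2⟩ := hPOW r θ hθ p (fa f a) u hp (continuous_fa hf a).measurable hu h1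
      refine hN ((p : ℤ) • a) (smul_ne_zero (by exact_mod_cast (by omega : p ≠ 0)) h0)
        (fun z => -(p • u z)) (hu.const_smul p).neg ?_
      filter_upwards [h2] with z hz
      rw [hz, smul_add, smul_add, hω, zero_add, fa_zsmul, natCast_zsmul]
      abel
  have h6 := key.const_mul (mFourier a k : ℂ)
  rw [mul_zero] at h6
  refine h6.congr fun N => ?_
  rw [mul_div_assoc]

end Pool.Agent.Helper40.KZ
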