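import Pool.Agent.Helper40.KZ.Stmts
import Pool.Agent.Helper60.JZ.PUR

/-! Row KUR: a resonance of a function which is cohomologous to a constant. -/

open Finset Filter MeasureTheory Topology
open scoped ComplexConjugate InnerProductSpace

namespace Pool.Agent.Helper40.KZ

open Pool.Agent.Helper16.AZ (T E Op mm fc Ind)
open Pool.Agent.Helper40.JZ (U cs tor Lift pj ms chi vz LM StrP pow_shift pur_char pur_zsmul
  pur_nsmul pur_chi_meas pur_cs_meas tch_add mpz_div mpz_rep)
open UnitAddTorus (mFourier)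

/-- the cocycle of a function which is cohomologous to a constant -/
theorem kur_cs {r : ℕ} {θ : T r} {F w : T r → U} {c : U}
    (h : ∀ᵐ x ∂(mm r), F x + w (x + θ) = c + w x) (n : ℕ) :
    ∀ᵐ x ∂(mm r), cs θ F n x + w (x + n • θ) = n • c + w x := by
  induction n with
  | zero => exact Eventually.of_forall fun x => by simp [Pool.Agent.Helper40.JZ.cs_zero]
  | succ n ih =>
    filter_upwards [ih, pow_shift h (n • θ)] with x hx hx'
    have e : x + (n + 1) • θ = x + n • θ + θ := by
      rw [succ_nsmul]; abel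
    rw [e, Pool.Agent.Helper40.JZ.cs_succ, succ_nsmul]
    have e2 : cs θ F n x + F (x + n • θ) + w (x + n • θ + θ) =
        cs θ F n x + (F (x + n • θ) + w (x + n • θ + θ)) := by abel
    rw [e2, hx']
    have e3 : cs θ F n x + (c + w (x + n • θ)) = c + (cs θ F n x + w (x + n • θ)) := by abel
    rw [e3, hx]
    abel

theorem kur_cs_smul {r : ℕ} (θ : T r) (F : T r → U) (x₀ : T r) (c : U) (n : ℕ) (y : T r) :
    cs θ (fun y => c - F (x₀ + y)) n y = n • c - cs θ F n (x₀ + y) := by
  simp only [cs, sum_sub_distrib, sum_const, card_range, add_assoc]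

theorem st_KUR (hTOR : Pool.Agent.Helper40.JZ.ST_TOR) (hTCH : Pool.Agent.Helper40.JZ.ST_TCH)
    (hERG : Pool.Agent.Helper40.JZ.ST_ERG) (hMPZ : Pool.Agent.Helper40.JZ.ST_MPZ)
    (hPOW : Pool.Agent.Helper40.JZ.ST_POW) : ST_KUR := by
  intro r s θ f hθ hf hN p q x₀ a b u hp hq hpq hR hK
  obtain ⟨hu, h⟩ := hR
  obtain ⟨c, w, hw, hc⟩ := hK
  have hp1 : 1 ≤ p := hp.one_le
  have hq1 : 1 ≤ q := hq.one_le
  have : NeZero q := ⟨by omega⟩
  have hbm : Measurable (fa f b) := (continuous_fa hf b).measurable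
  set v : T r → U := fun z => u z + w (x₀ + p • z) with hv
  have hvm : Measurable v := hu.add (hw.comp ((hMPZ r p hp1).1 x₀).measurable)
  have h1 : ∀ᵐ z ∂(mm r), v (z + θ) + cs θ (fa f b) q (x₀ + q • z) = p • c + v z := by
    filter_upwards [h, ((hMPZ r p hp1).1 x₀).quasiMeasurePreserving.ae (kur_cs hc p)] with z hz hz'
    show u (z + θ) + w (x₀ + p • (z + θ)) + cs θ (fa f b) q (x₀ + q • z) =
      p • c + (u z + w (x₀ + p • z))
    have e : x₀ + p • (z + θ) = x₀ + p • z + p • θ := by rw [smul_add]; abel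
    rw [e]
    have e2 : u (z + θ) + w (x₀ + p • z + p • θ) + cs θ (fa f b) q (x₀ + q • z) =
        u (z + θ) + cs θ (fa f b) q (x₀ + q • z) + w (x₀ + p • z + p • θ) := by abel
    rw [e2, hz]
    have e3 : cs θ (fa f a) p (x₀ + p • z) + u z + w (x₀ + p • z + p • θ) =
        cs θ (fa f a) p (x₀ + p • z) + w (x₀ + p • z + p • θ) + u z := by abel
    rw [e3, hz']
    abel
  -- the increments along the torsion points
  obtain ⟨ω, hω⟩ := pur_char hTOR hTCH (q := q) (v := fun s z => v (z + s) - v z) (by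
    intro s hs
    refine (hERG r θ hθ).2.1 _ ((hvm.comp (measurable_add_const s)).sub hvm) ?_
    filter_upwards [h1, pow_shift h1 s] with z hz hz'
    have e : z + θ + s = z + s + θ := by abel
    have e2 : x₀ + q • (z + s) = x₀ + q • z := by
      rw [smul_add, ((hTOR r q hq1).1 s).1 hs, add_zero]
    rw [e2] at hz'
    rw [e, eq_sub_of_add_eq hz, eq_sub_of_add_eq hz']
    abel) (by
    intro s hs s' hs'
    refine Eventually.of_forall fun z => ?_
    have e : z + (s + s') = z + s' + s := by abel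
    show v (z + (s + s')) - v z = v (z + s' + s) - v (z + s') + (v (z + s') - v z)
    rw [e]
    abel)
  set n := vz ω with hn
  -- division by `q`
  obtain ⟨w₁, hw₁, hw1⟩ := (hMPZ r q hq1).2 (fun z => v z - chi n z) (hvm.sub (pur_chi_meas n)) (by
    intro s hs
    filter_upwards [hω s hs] with z hz
    have hz' : v (z + s) = chi n s + v z := by
      rw [← hz]
      abel
    rw [hz', tch_add]
    abel)
  have h3 : ∀ᵐ z ∂(mm r), w₁ (0 + q • z + q • θ) =
      p • c - chi n θ - cs θ (fa f b) q (x₀ + (0 + q • z)) + w₁ (0 + q • z) := by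
    filter_upwards [h1, hw1, pow_shift hw1 θ] with z hz hz1 hz2
    rw [zero_add, ← smul_add, ← hz2, ← hz1, eq_sub_of_add_eq hz, tch_add]
    abel
  have h4 : ∀ᵐ y ∂(mm r), w₁ (y + q • θ) =
      p • c - chi n θ - cs θ (fa f b) q (x₀ + y) + w₁ y := by
    have hmp := (hMPZ r q hq1).1 0
    rw [← hmp.map_eq]
    rw [ae_map_iff hmp.measurable.aemeasurable]
    · exact h3
    · refine measurableSet_eq_fun (hw₁.comp (measurable_add_const _)) ?_
      exact (((pur_cs_meas θ hbm q).comp (measurable_const_add x₀)).const_sub _).add hw₁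
  obtain ⟨ω', hω', h5⟩ := hPOW r θ hθ q
    (fun y => ((mpz_rep (p • c - chi n θ) / q : ℝ) : U) - fa f b (x₀ + y)) w₁ hq1
    ((hbm.comp (measurable_const_add x₀)).const_sub _) hw₁ (by
      filter_upwards [h4] with y hy
      rw [hy, kur_cs_smul, mpz_div q hq1])
  have hm : (q : ℤ) • b + (-(p : ℤ)) • a = 0 := by
    by_contra hm
    refine hN _ hm (fun x => q • w₁ (x + -x₀) - p • w x + chi n x) ?_ ?_
    · exact ((pur_nsmul (hw₁.comp (measurable_add_const _)) q).sub (pur_nsmul hw p)).add
        (pur_chi_meas n)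
    · filter_upwards [pow_shift h5 (-x₀), hc] with x hx hx'
      have e : x + θ + -x₀ = x + -x₀ + θ := by abel
      have e2 : x₀ + (x + -x₀) = x := by abel
      have e3 : w (x + θ) = c + w x - fa f a x := by
        rw [← hx']
        abel
      rw [fa_add, fa_zsmul, fa_zsmul, neg_smul, natCast_zsmul, natCast_zsmul, e, hx, e2, e3,
        tch_add]
      simp only [smul_add, smul_sub, hω', mpz_div q hq1]
      abel
  intro i
  have hi : (q : ℤ) * b i = (p : ℤ) * a i := by
    have := congrFun hm i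
    simp only [Pi.add_apply, Pi.smul_apply, smul_eq_mul, Pi.zero_apply] at this
    linarith
  have hcop : IsCoprime (q : ℤ) (p : ℤ) :=
    Nat.isCoprime_iff_coprime.2 ((Nat.coprime_primes hq hp).2 (Ne.symm hpq))
  exact hcop.dvd_of_dvd_mul_left ⟨b i, hi.symm⟩

end Pool.Agent.Helper40.KZ
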