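import Pool.Agent.Helper40.KZ.Stmts
import Pool.Agent.Helper53.JZ.LFR

/-! Row LFR5: a resonance of two functions with values in the circle gives a lift
(after helper53's proof of the row LFR). -/

open Finset Filter MeasureTheory Topology

namespace Pool.Agent.Helper40.KZ

open Pool.Agent.Helper16.AZ (T mm Ind)
open Pool.Agent.Helper40.JZ (U cs tor Lift ST_TOR ST_ERG ST_MPZ ST_POW)
open Pool.Agent.Helper53.JZ.LFR

theorem lfr5_kappa {r : ℕ} (θ : T r) (F : T r → U) (t : T r) (n : ℕ) (x : T r) :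
    cs θ (fun x => F (x + t) - F x) n x = cs θ F n (x + t) - cs θ F n x := by
  unfold cs
  rw [Finset.sum_sub_distrib]
  congr 2
  refine funext fun j => ?_
  rw [add_right_comm]

theorem st_LFR5 : ST_TOR → ST_ERG → ST_MPZ → ST_POW → ST_LFR5 := by
  intro hTOR hERG hMPZ hPOW r θ F F' hθ hF hF' p q x₀ u hp hq hpq hR
  obtain ⟨hum, hu⟩ := hR
  have hp1 : 1 ≤ p := hp.one_le
  have hq1 : 1 ≤ q := hq.one_le
  obtain ⟨htq, -, -, -, -⟩ := hTOR r q hq1
  obtain ⟨htp, -, -, -, -⟩ := hTOR r p hp1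
  have hcop : Nat.Coprime p q := (Nat.coprime_primes hp hq).2 hpq
  obtain ⟨hmp, hfac⟩ := hMPZ r p hp1
  have hE := (hERG r θ hθ).2.1
  -- the increments
  have hD0 : ∀ s ∈ tor r q, ∀ᵐ z ∂(mm r), (u (z + θ + s) - u (z + θ)) - (u (z + s) - u z) =
      cs θ F p (x₀ + p • z + p • s) - cs θ F p (x₀ + p • z) := by
    intro s hs
    have hs0 : q • s = 0 := (htq s).1 hs
    filter_upwards [hu, ae_tr hu s] with z h1 h2
    rw [smul_add, smul_add, hs0, add_zero, ← add_assoc] at h2
    have h3 : z + θ + s = z + s + θ := add_right_comm _ _ _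
    rw [h3]
    have e1 : u (z + θ) = cs θ F p (x₀ + p • z) + u z - cs θ F' q (x₀ + q • z) :=
      eq_sub_of_add_eq h1
    have e2 : u (z + s + θ) = cs θ F p (x₀ + p • z + p • s) + u (z + s) -
        cs θ F' q (x₀ + q • z) := eq_sub_of_add_eq h2
    rw [e1, e2]
    abel
  -- invariance under the torsion points of order p
  have hc : ∀ s ∈ tor r q, ∀ i ∈ tor r p, ∃ c : U, ∀ᵐ z ∂(mm r),
      (u (z + i + s) - u (z + i)) - (u (z + s) - u z) = c := by
    intro s hs i hi
    have hi0 : p • i = 0 := (htp i).1 hi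
    refine hE (fun z => (u (z + i + s) - u (z + i)) - (u (z + s) - u z)) (by fun_prop) ?_
    filter_upwards [hD0 s hs, ae_tr (hD0 s hs) i] with z h1 h2
    rw [smul_add, hi0, add_zero] at h2
    have h3 : (u (z + i + θ + s) - u (z + i + θ)) - (u (z + i + s) - u (z + i)) =
        (u (z + θ + s) - u (z + θ)) - (u (z + s) - u z) := h2.trans h1.symm
    have h4 : z + θ + i = z + i + θ := add_right_comm _ _ _
    have e1 := sub_eq_iff_eq_add.1 h3
    rw [h4, e1]
    abel
  choose! c hc using hc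
  have hcadd1 : ∀ s ∈ tor r q, ∀ i ∈ tor r p, ∀ i' ∈ tor r p,
      c s (i + i') = c s i + c s i' := by
    intro s hs i hi i' hi'
    have hii : i + i' ∈ tor r p := by
      rw [htp, smul_add, (htp i).1 hi, (htp i').1 hi', add_zero]
    obtain ⟨z, h1, h2, h3⟩ := ex_pt ((hc s hs _ hii).and ((hc s hs i' hi').and
      (ae_tr (hc s hs i hi) i')))
    rw [← h1, ← h2, ← h3]
    have h4 : z + (i + i') = z + i' + i := by abel
    rw [h4]
    abel
  have hcadd2 : ∀ i ∈ tor r p, ∀ s ∈ tor r q, ∀ s' ∈ tor r q,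
      c (s + s') i = c s i + c s' i := by
    intro i hi s hs s' hs'
    have hss : s + s' ∈ tor r q := by
      rw [htq, smul_add, (htq s).1 hs, (htq s').1 hs', add_zero]
    obtain ⟨z, h1, h2, h3⟩ := ex_pt ((hc _ hss i hi).and ((hc s' hs' i hi).and
      (ae_tr (hc s hs i hi) s')))
    rw [← h1, ← h2, ← h3]
    have h4 : z + i + (s + s') = z + s' + i + s := by abel
    have h5 : z + (s + s') = z + s' + s := by abel
    have h6 : z + i + s' = z + s' + i := by abel
    rw [h4, h5, h6]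
    abel
  have hc0 : ∀ s ∈ tor r q, ∀ i ∈ tor r p, c s i = 0 := by
    intro s hs i hi
    exact eq_zero_of_cop hcop (nsmul_of_add htp (hcadd1 s hs) hi)
      (nsmul_of_add (c := fun s => c s i) htq (hcadd2 i hi) hs)
  -- the functions D'
  have hDex : ∀ s ∈ tor r q, ∃ D : T r → U, Measurable D ∧
      ∀ᵐ z ∂(mm r), u (z + s) - u z = D (x₀ + p • z) := by
    intro s hs
    obtain ⟨v, hv, hv'⟩ := hfac (fun z => u (z + s) - u z) (by fun_prop) (by
      intro i hi
      filter_upwards [hc s hs i hi] with z h1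
      rw [hc0 s hs i hi] at h1
      exact sub_eq_zero.1 h1)
    refine ⟨fun x => v (x - x₀), hv.comp (measurable_id.sub_const _), ?_⟩
    filter_upwards [hv'] with z h1
    rw [h1, add_sub_cancel_left]
  choose! D' hD'm hD' using hDex
  have hinc : ∀ s ∈ tor r q, ∀ᵐ x ∂(mm r), D' s (x + p • θ) =
      cs θ (fun x => F (x + p • s) - F x) p x + D' s x := by
    intro s hs
    refine ae_im (hmp x₀) (ms_eq ((hD'm s hs).comp (measurable_id.add_const _))
      ((meas_cs θ (by fun_prop) p).add (hD'm s hs))) ?_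
    filter_upwards [hD0 s hs, hD' s hs, ae_tr (hD' s hs) θ] with z h1 h2 h3
    rw [h2, h3] at h1
    rw [lfr5_kappa, ← h1, smul_add, add_assoc]
    abel
  have hPW : ∀ s ∈ tor r q, ∃ ω : U, p • ω = 0 ∧ ∀ᵐ x ∂(mm r),
      D' s (x + θ) = ω + (F (x + p • s) - F x) + D' s x := by
    intro s hs
    exact hPOW r θ hθ p (fun x => F (x + p • s) - F x) (D' s) hp1 (by fun_prop)
      (hD'm s hs) (hinc s hs)
  choose! ω hω1 hω2 using hPW
  have hcoc : ∀ s ∈ tor r q, ∀ s' ∈ tor r q, ∀ᵐ x ∂(mm r),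
      D' (s + s') x = D' s (x + p • s') + D' s' x := by
    intro s hs s' hs'
    have hss : s + s' ∈ tor r q := by
      rw [htq, smul_add, (htq s).1 hs, (htq s').1 hs', add_zero]
    refine ae_im (hmp x₀) (ms_eq (hD'm _ hss) (((hD'm s hs).comp
      (measurable_id.add_const _)).add (hD'm s' hs'))) ?_
    filter_upwards [hD' _ hss, hD' s' hs', ae_tr (hD' s hs) s'] with z h1 h2 h3
    rw [smul_add, ← add_assoc] at h3
    rw [← h1, ← h2, ← h3]
    have h4 : z + (s + s') = z + s' + s := by abel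
    rw [h4]
    abel
  have hωadd : ∀ s ∈ tor r q, ∀ s' ∈ tor r q, ω (s + s') = ω s + ω s' := by
    intro s hs s' hs'
    have hss : s + s' ∈ tor r q := by
      rw [htq, smul_add, (htq s).1 hs, (htq s').1 hs', add_zero]
    obtain ⟨x, h1, h2, h3, h4, h5⟩ := ex_pt ((hcoc s hs s' hs').and ((ae_tr (hcoc s hs s' hs') θ).and
      ((hω2 _ hss).and ((hω2 s' hs').and (ae_tr (hω2 s hs) (p • s'))))))
    have e1 : x + θ + p • s' = x + p • s' + θ := add_right_comm _ _ _
    have e2 : x + p • s' + p • s = x + p • (s + s') := by rw [smul_add]; abel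
    rw [e1, h3, h4, h5, h1, e2] at h2
    have h6 : ω (s + s') + (F (x + p • (s + s')) - F x) + (D' s (x + p • s') + D' s' x) =
      (ω s + ω s') + (F (x + p • (s + s')) - F x) + (D' s (x + p • s') + D' s' x) := by
      rw [h2]
      abel
    exact add_right_cancel (add_right_cancel h6)
  have hω0 : ∀ s ∈ tor r q, ω s = 0 := by
    intro s hs
    exact eq_zero_of_cop hcop (hω1 s hs) (nsmul_of_add htq hωadd hs)
  -- the inverse of p
  obtain ⟨p', hp'⟩ : ∃ p' : ℕ, p' * p ≡ 1 [MOD q] := by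
    obtain ⟨y, -, hy⟩ := Nat.exists_mul_mod_eq_one_of_coprime hcop hq.one_lt
    refine ⟨y, ?_⟩
    unfold Nat.ModEq
    rw [mul_comm, hy, Nat.mod_eq_of_lt hq.one_lt]
  have hpp : ∀ s ∈ tor r q, (p' * p) • s = s := by
    intro s hs
    have hs0 := (htq s).1 hs
    have h1 : (p' * p) • s = ((p' * p) % q) • s := by
      conv_lhs => rw [← Nat.div_add_mod (p' * p) q]
      rw [add_smul, mul_comm, mul_smul, hs0, smul_zero, zero_add]
    rw [h1, hp', Nat.mod_eq_of_lt hq.one_lt, one_smul]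
  have hmem : ∀ k : ℕ, ∀ s ∈ tor r q, k • s ∈ tor r q := by
    intro k s hs
    rw [htq, smul_comm, (htq s).1 hs, smul_zero]
  have hpp' : ∀ s ∈ tor r q, p • p' • s = s := by
    intro s hs
    rw [smul_smul, mul_comm, hpp s hs]
  refine ⟨fun t => D' (p' • t), ⟨fun s hs => hD'm _ (hmem p' s hs), ?_, ?_⟩, ?_⟩
  · intro s hs s' hs'
    filter_upwards [hcoc _ (hmem p' s hs) _ (hmem p' s' hs')] with x h1
    rw [smul_add, h1, hpp' s' hs']
  · intro s hs
    filter_upwards [hω2 _ (hmem p' s hs)] with x h1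
    rw [h1, hω0 _ (hmem p' s hs), hpp' s hs, zero_add, one_smul, one_smul]
    abel
  · intro s hs
    filter_upwards [hD' s hs] with z h1
    rw [smul_smul, hpp s hs, ← h1]
    abel

end Pool.Agent.Helper40.KZ
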