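import Pool.Agent.Helper40.KZ.Stmts

/-! Row PUR5: there is no resonance with one side only. -/

open Finset Filter MeasureTheory Topology
open scoped ComplexConjugate InnerProductSpace

namespace Pool.Agent.Helper40.KZ

open Pool.Agent.Helper16.AZ (T E Op mm fc Ind)
open Pool.Agent.Helper40.JZ (U cs tor Lift pj ms chi vz LM StrP)
open UnitAddTorus (mFourier)

theorem pur5_fa_zero {r s : ℕ} (f : T r → T s) (x : T r) : fa f 0 x = 0 := by
  simp [fa, chi]

theorem pur5_cs_zero {r s : ℕ} (θ : T r) (f : T r → T s) (n : ℕ) (x : T r) :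
    cs θ (fa f 0) n x = 0 := by
  unfold cs
  exact Finset.sum_eq_zero fun j _ => pur5_fa_zero f _

theorem pur5_n0 {r s : ℕ} {θ : T r} {f : T r → T s} (hN : N0 θ f) {b : Fin s → ℤ} (hb : b ≠ 0) :
    Pool.Agent.Helper40.JZ.N0 θ (fa f b) := by
  intro m hm u hu h
  refine hN (m • b) (smul_ne_zero hm hb) u hu ?_
  filter_upwards [h] with x hx
  rw [fa_zsmul]
  exact hx

theorem pur5_key (hPUR : Pool.Agent.Helper40.JZ.ST_PUR) {r s : ℕ} {θ : T r} {f : T r → T s}
    (hθ : Ind θ) (hf : Continuous f) (hN : N0 θ f) {p q : ℕ} {x₀ : T r} {b : Fin s → ℤ}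
    {u : T r → U} (hq : 1 ≤ q) (h : Rs θ (fa f 0) (fa f b) p q x₀ u) : b = 0 := by
  by_contra hb
  have h1 := hPUR r θ (fa f b) hθ (continuous_fa hf b) (pur5_n0 hN hb) q x₀ (-1) u hq h.1 (by
    filter_upwards [h.2] with z hz
    rw [pur5_cs_zero, zero_add] at hz
    rw [← hz]
    rw [neg_one_zsmul]
    abel)
  exact absurd h1 (by norm_num)

theorem st_PUR5 (hPUR : Pool.Agent.Helper40.JZ.ST_PUR) : ST_PUR5 := by
  intro r s θ f hθ hf hN p q x₀ a b u hp hq h
  constructor
  · intro ha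
    subst ha
    exact pur5_key hPUR hθ hf hN hq h
  · intro hb
    subst hb
    exact pur5_key hPUR hθ hf hN hp h.symm

end Pool.Agent.Helper40.KZ
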