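import Pool.Agent.Helper60.K5.RESb

/-! Row RES5: bound for all correlations of the powers `p` and `q`
(after helper2's proof of the row RES). -/

open Finset Filter MeasureTheory Topology
open scoped ComplexConjugate InnerProductSpace

namespace Pool.Agent.Helper60.K5

open Pool.Agent.Helper16.AZ (T E Op mm fc Ind)
open Pool.Agent.Helper16.BZ (EQ)
open Pool.Agent.Helper40.DZ (RI UR SK Good3 par_app par_apx ST_RIS ST_EQR)
open Pool.Agent.Helper40.JZ (U cs tor Lift pj ms chi)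
open Pool.Agent.Helper40.KZ
open Pool.Agent.Helper2.JZ (avg_small ri_eta)
open UnitAddTorus (mFourier)

variable {r s : ℕ}

/-- the effect of an approximation on the mean and on the mass -/
theorem ap_one (ntf : ST_NTF5) {θ : T r} {f : T r → T s} (hf : Continuous f) {q : ℕ} (hq : 1 ≤ q)
    {t : TY r s} (ht : OK θ f q t) {G P : T (r + s) → ℂ} {R : T (r + s) → ℝ} (hG : RI G)
    (hP : Continuous P) (hR : Continuous R) {C s' c : ℝ} (hC0 : 0 ≤ C) (hs : 0 ≤ s') (hc : 0 ≤ c)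
    (hc2 : c ^ 2 = 2 * (2 * C + 1)) (b1 : ∀ x, ‖G x - P x‖ ≤ R x) (b2 : ∀ x, R x ≤ 2 * C + 1)
    (b3 : ∫ x, R x ∂(mm (r + s)) ≤ 2 * s' ^ 2) :
    ‖∫ y, P y ∂(mm (r + s))‖ ≤ ‖∫ y, G y ∂(mm (r + s))‖ + 2 * s' ^ 2 ∧
    Real.sqrt (NT q t P - ‖∫ y, P y ∂(mm (r + s))‖ ^ 2) ≤
      Real.sqrt (NT q t G - ‖∫ y, G y ∂(mm (r + s))‖ ^ 2) + c * s' := by
  have hPR : RI P := RI.of_continuous hP
  have hR0 : ∀ x, 0 ≤ R x := fun x => (norm_nonneg _).trans (b1 x)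
  have iR : Integrable R (mm (r + s)) := (RI.of_continuous hR).integrable
  have iR2 : Integrable (fun x => R x ^ 2) (mm (r + s)) :=
    (RI.of_continuous (hR.pow 2)).integrable
  refine ⟨?_, ?_⟩
  · have e1 : ∫ y, P y ∂(mm (r + s)) = ∫ y, G y ∂(mm (r + s)) -
        ∫ y, (G y - P y) ∂(mm (r + s)) := by
      rw [integral_sub hG.integrable hPR.integrable]
      ring
    rw [e1]
    refine (norm_sub_le _ _).trans (add_le_add le_rfl ?_)
    exact (norm_integral_le_of_norm_le iR (Eventually.of_forall b1)).trans b3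
  · refine ((ntf r s θ f q t P G hq hf.measurable ht (hPR.memLp 2) (hG.memLp 2)).2.2.2.2).trans
      (add_le_add le_rfl ?_)
    refine Real.sqrt_le_iff.2 ⟨by positivity, ?_⟩
    have g6 : Integrable (fun x => ‖P x - G x‖ ^ 2) (mm (r + s)) :=
      ((hPR.sub hG).norm.cont_comp (g := fun t : ℝ => t ^ 2) (continuous_pow 2)).integrable
    calc ∫ θ, ‖P θ - G θ‖ ^ 2 ∂(mm (r + s)) ≤ ∫ θ, R θ ^ 2 ∂(mm (r + s)) := by
          refine integral_mono g6 iR2 fun x => ?_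
          refine pow_le_pow_left₀ (norm_nonneg _) ?_ 2
          rw [norm_sub_rev]
          exact b1 x
      _ ≤ ∫ x, (2 * C + 1) * R x ∂(mm (r + s)) := by
          refine integral_mono iR2 (iR.const_mul _) fun x => ?_
          have := b2 x
          have := hR0 x
          show R x ^ 2 ≤ (2 * C + 1) * R x
          nlinarith
      _ = (2 * C + 1) * ∫ x, R x ∂(mm (r + s)) := integral_const_mul _ _
      _ ≤ (2 * C + 1) * (2 * s' ^ 2) := mul_le_mul_of_nonneg_left b3 (by linarith)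
      _ = (c * s') ^ 2 := by rw [mul_pow, hc2]; ring

/-- from functions with finitely many Fourier coefficients to Riemann integrable functions -/
theorem bd_ri (eqr : ST_EQR) (ntf : ST_NTF5) {θ : T r} {f : T r → T s} (hf : Continuous f)
    (hE : EQ (SA θ f) (mm (r + s))) {p q : ℕ} (hp : 1 ≤ p) (hq : 1 ≤ q) (y₀ : T (r + s))
    {t t' : TY r s} (ht : OK θ f q t) (ht' : OK θ f p t')
    (hb : ∀ (A A' : Finset (Fin s → ℤ)) (g g' : (Fin s → ℤ) → T r → ℂ), 0 ∈ A → 0 ∈ A' →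
      (∀ a, Continuous (g a)) → (∀ a, Continuous (g' a)) → (∀ a, a ∉ A → ∀ x, g a x = 0) →
      (∀ a, a ∉ A' → ∀ x, g' a x = 0) → Bd θ f p q y₀ t t' (tp A g) (tp A' g'))
    {G G' : T (r + s) → ℂ} (hG : RI G) (hG' : RI G') : Bd θ f p q y₀ t t' G G' := by
  intro ε hε
  obtain ⟨C, hC, hC'⟩ : ∃ C : ℝ, (∀ x, ‖G x‖ ≤ C) ∧ ∀ x, ‖G' x‖ ≤ C := by
    obtain ⟨C₁, h1⟩ := hG.2
    obtain ⟨C₂, h2⟩ := hG'.2
    exact ⟨max C₁ C₂, fun x => (h1 x).trans (le_max_left _ _),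
      fun x => (h2 x).trans (le_max_right _ _)⟩
  have hC0 : 0 ≤ C := (norm_nonneg _).trans (hC 0)
  obtain ⟨I, hI⟩ : ∃ I : ℝ, I = ‖∫ x, G x ∂(mm (r + s))‖ := ⟨_, rfl⟩
  obtain ⟨I', hI'⟩ : ∃ I : ℝ, I = ‖∫ x, G' x ∂(mm (r + s))‖ := ⟨_, rfl⟩
  obtain ⟨V, hV⟩ : ∃ V : ℝ, V = Real.sqrt (NT q t G - I ^ 2) := ⟨_, rfl⟩
  obtain ⟨V', hV'⟩ : ∃ V : ℝ, V = Real.sqrt (NT p t' G' - I' ^ 2) := ⟨_, rfl⟩
  have hV0 : 0 ≤ V := hV ▸ Real.sqrt_nonneg _
  have hV0' : 0 ≤ V' := hV' ▸ Real.sqrt_nonneg _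
  have hI0 : 0 ≤ I := hI ▸ norm_nonneg _
  have hI0' : 0 ≤ I' := hI' ▸ norm_nonneg _
  obtain ⟨c, hc⟩ : ∃ c : ℝ, c = Real.sqrt (2 * (2 * C + 1)) := ⟨_, rfl⟩
  have hc0 : 0 ≤ c := hc ▸ Real.sqrt_nonneg _
  have hc2 : c ^ 2 = 2 * (2 * C + 1) := by rw [hc, Real.sq_sqrt (by positivity)]
  obtain ⟨s', hs0, hs1, hs⟩ := ri_eta I I' V V' c C ε hε
  have hs2 : s' ^ 2 ≤ 1 := pow_le_one₀ hs0.le hs1
  obtain ⟨cG, R, hR, b1, b2, b3⟩ := par_apx Pool.Agent.Helper95.DZ.st_RIS hG hC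
    (δ := s' ^ 2) (by positivity) hs2
  obtain ⟨cG', R', hR', b1', b2', b3'⟩ := par_apx Pool.Agent.Helper95.DZ.st_RIS hG' hC'
    (δ := s' ^ 2) (by positivity) hs2
  obtain ⟨A, g, hA, hg, hg0, hgt⟩ := tp_of cG
  obtain ⟨A', g', hA', hg', hg0', hgt'⟩ := tp_of cG'
  simp only [hgt] at b1
  simp only [hgt'] at b1'
  have hR0 : ∀ x, 0 ≤ R x := fun x => (norm_nonneg _).trans (b1 x)
  have hR0' : ∀ x, 0 ≤ R' x := fun x => (norm_nonneg _).trans (b1' x)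
  obtain ⟨k1, k2⟩ := ap_one ntf hf hq ht hG (tp_cont hg) hR hC0 hs0.le hc0 hc2 b1 b2 b3
  obtain ⟨k1', k2'⟩ := ap_one ntf hf hp ht' hG' (tp_cont hg') hR' hC0 hs0.le hc0 hc2 b1' b2' b3'
  rw [← hI] at k1 k2
  rw [← hI'] at k1' k2'
  rw [← hV] at k2
  rw [← hV'] at k2'
  have hs3 : 2 * s' ^ 2 < 3 * s' ^ 2 := by
    have : 0 < s' ^ 2 := by positivity
    linarith
  have m1 := avg_small eqr hE hR hp y₀ b3 hR0 hs3
  have m2 := avg_small eqr hE hR' hq y₀ b3' hR0' hs3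
  have m3 := hb A A' g g' hA hA' hg hg' hg0 hg0' s' hs0
  have pb : ∀ x, ‖tp A g x‖ ≤ 3 * C + 1 := by
    intro x
    calc ‖tp A g x‖ = ‖G x - (G x - tp A g x)‖ := by congr 1; ring
      _ ≤ ‖G x‖ + ‖G x - tp A g x‖ := norm_sub_le _ _
      _ ≤ _ := by
        have := b1 x
        have := b2 x
        have := hC x
        linarith
  filter_upwards [m1, m2, m3] with M n1 n2 n3
  have hM0 : (0 : ℝ) ≤ M := Nat.cast_nonneg M
  have e1 : ∑ n ∈ Icc 1 M, G ((SA θ f)^[p * n] y₀) * conj (G' ((SA θ f)^[q * n] y₀)) =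
      ∑ n ∈ Icc 1 M, tp A g ((SA θ f)^[p * n] y₀) * conj (tp A' g' ((SA θ f)^[q * n] y₀)) +
      ∑ n ∈ Icc 1 M, ((G ((SA θ f)^[p * n] y₀) - tp A g ((SA θ f)^[p * n] y₀)) *
        conj (G' ((SA θ f)^[q * n] y₀)) + tp A g ((SA θ f)^[p * n] y₀) *
        conj (G' ((SA θ f)^[q * n] y₀) - tp A' g' ((SA θ f)^[q * n] y₀))) := by
    rw [← Finset.sum_add_distrib]
    refine Finset.sum_congr rfl fun n _ => ?_
    rw [map_sub]
    ring
  have e2 : ‖∑ n ∈ Icc 1 M, ((G ((SA θ f)^[p * n] y₀) - tp A g ((SA θ f)^[p * n] y₀)) *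
        conj (G' ((SA θ f)^[q * n] y₀)) + tp A g ((SA θ f)^[p * n] y₀) *
        conj (G' ((SA θ f)^[q * n] y₀) - tp A' g' ((SA θ f)^[q * n] y₀)))‖ ≤
      (C * (3 * s' ^ 2) + (3 * C + 1) * (3 * s' ^ 2)) * M := by
    refine (norm_sum_le _ _).trans ?_
    calc _ ≤ ∑ n ∈ Icc 1 M, (C * R ((SA θ f)^[p * n] y₀) +
          (3 * C + 1) * R' ((SA θ f)^[q * n] y₀)) := by
          refine Finset.sum_le_sum fun n _ => ?_
          refine (norm_add_le _ _).trans (add_le_add ?_ ?_)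
          · rw [norm_mul, RCLike.norm_conj, mul_comm]
            exact mul_le_mul (hC' _) (b1 _) (norm_nonneg _) hC0
          · rw [norm_mul, RCLike.norm_conj]
            exact mul_le_mul (pb _) (b1' _) (norm_nonneg _) (by linarith)
      _ = C * ∑ n ∈ Icc 1 M, R ((SA θ f)^[p * n] y₀) +
          (3 * C + 1) * ∑ n ∈ Icc 1 M, R' ((SA θ f)^[q * n] y₀) := by
          rw [Finset.sum_add_distrib, Finset.mul_sum, Finset.mul_sum]
      _ ≤ C * (3 * s' ^ 2 * M) + (3 * C + 1) * (3 * s' ^ 2 * M) :=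
          add_le_add (mul_le_mul_of_nonneg_left n1 hC0)
            (mul_le_mul_of_nonneg_left n2 (by linarith))
      _ = _ := by ring
  have e3 : ‖∫ y, tp A g y ∂(mm (r + s))‖ * ‖∫ y, tp A' g' y ∂(mm (r + s))‖ +
      Real.sqrt (NT q t (tp A g) - ‖∫ y, tp A g y ∂(mm (r + s))‖ ^ 2) *
      Real.sqrt (NT p t' (tp A' g') - ‖∫ y, tp A' g' y ∂(mm (r + s))‖ ^ 2) + s' ≤
      (I + 2 * s' ^ 2) * (I' + 2 * s' ^ 2) + (V + c * s') * (V' + c * s') + s' := by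
    refine add_le_add (add_le_add ?_ ?_) le_rfl
    · exact mul_le_mul k1 k1' (norm_nonneg _) (by positivity)
    · exact mul_le_mul k2 k2' (Real.sqrt_nonneg _) (by positivity)
  rw [← hI, ← hI', ← hV, ← hV', e1]
  calc _ ≤ _ := norm_add_le _ _
    _ ≤ ((I + 2 * s' ^ 2) * (I' + 2 * s' ^ 2) + (V + c * s') * (V' + c * s') + s') * M +
        (C * (3 * s' ^ 2) + (3 * C + 1) * (3 * s' ^ 2)) * M :=
        add_le_add (n3.trans (mul_le_mul_of_nonneg_right e3 hM0)) e2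
    _ ≤ _ := by
        rw [← add_mul]
        exact mul_le_mul_of_nonneg_right hs hM0

end Pool.Agent.Helper60.K5

namespace Pool.Agent.Helper40.KZ

open Pool.Agent.Helper16.AZ (T E Op mm fc Ind)
open Pool.Agent.Helper16.BZ (EQ)
open Pool.Agent.Helper40.DZ (RI UR SK Good3 ST_EQR)
open Pool.Agent.Helper40.JZ (U cs tor Lift ST_PRJ ST_PRB ST_ERG ST_MPZ ST_TOR)
open Pool.Agent.Helper60.K5

theorem st_RES5 (pur : ST_PUR5) (kur : ST_KUR) (lfr : ST_LFR5) (prj : ST_PRJ) (prb : ST_PRB)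
    (jtp : ST_JTP5) (fibs : ST_FIB5) (ntf : ST_NTF5) (eqa : ST_EQA5) (eqr : ST_EQR)
    (erg : ST_ERG) (mpz : ST_MPZ) (tor0 : ST_TOR) : ST_RES5 := by
  intro r s θ f hθ hf hN p q y₀ hp hq hpq
  have hE := eqa r s θ f hθ hf hN
  obtain ⟨t, ht, h1⟩ := res_type pur kur lfr erg mpz tor0 hθ hf hN (ini y₀) hp hq hpq
  obtain ⟨t', ht', h2⟩ := res_type pur kur lfr erg mpz tor0 hθ hf hN (ini y₀) hq hp hpq.symm
  refine ⟨t, t', ht, ht', fun G G' hG hG' => ?_⟩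
  exact bd_ri eqr ntf hf hE hp.one_le hq.one_le y₀ ht ht'
    (fun A A' g g' hA hA' hg hg' hg0 hg0' =>
      bd_tp pur prj prb jtp fibs ntf hθ hf hN hp hq hpq y₀ ht ht' h1 h2 hA hA' hg hg' hg0 hg0')
    hG hG'

end Pool.Agent.Helper40.KZ
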