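import Pool.Agent.Helper60.K5.PUR5
import Pool.Agent.Helper60.JZ.TCH
import Pool.Agent.Helper60.JZ.POW
import Pool.Agent.Helper2.JZ.RES
import Pool.Agent.Helper96.K5.NTF5

/-! Row RES5, part 1: the types which belong to the resonances of two powers. -/

open Finset Filter MeasureTheory Topology
open scoped ComplexConjugate InnerProductSpace

namespace Pool.Agent.Helper60.K5

open Pool.Agent.Helper16.AZ (T E Op mm fc Ind)
open Pool.Agent.Helper40.JZ (U cs tor Lift pj ms chi)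
open Pool.Agent.Helper40.KZ
open UnitAddTorus (mFourier)

variable {r s : ℕ}

theorem cs_fa_add (θ : T r) (f : T r → T s) (a b : Fin s → ℤ) (n : ℕ) (x : T r) :
    cs θ (fa f (a + b)) n x = cs θ (fa f a) n x + cs θ (fa f b) n x := by
  simp only [cs, fa_add, sum_add_distrib]

theorem cs_fa_neg (θ : T r) (f : T r → T s) (a : Fin s → ℤ) (n : ℕ) (x : T r) :
    cs θ (fa f (-a)) n x = -cs θ (fa f a) n x := by
  have h : ∀ y : T r, fa f (-a) y = -fa f a y := by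
    intro y
    have := fa_zsmul f (-1) a y
    rw [neg_one_zsmul, neg_one_zsmul] at this
    exact this
  simp only [cs, h, sum_neg_distrib]

theorem rs_zero (θ : T r) (f : T r → T s) (p q : ℕ) (x₀ : T r) :
    Rs θ (fa f 0) (fa f 0) p q x₀ (fun _ => 0) :=
  ⟨measurable_const, Eventually.of_forall fun z => by rw [pur5_cs_zero, pur5_cs_zero, add_zero]⟩

theorem rs_add {θ : T r} {f : T r → T s} {p q : ℕ} {x₀ : T r} {a b a' b' : Fin s → ℤ}
    {u u' : T r → U} (h : Rs θ (fa f a) (fa f b) p q x₀ u)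
    (h' : Rs θ (fa f a') (fa f b') p q x₀ u') :
    Rs θ (fa f (a + a')) (fa f (b + b')) p q x₀ (fun z => u z + u' z) := by
  refine ⟨h.1.add h'.1, ?_⟩
  filter_upwards [h.2, h'.2] with z hz hz'
  rw [cs_fa_add, cs_fa_add]
  have e : u (z + θ) + u' (z + θ) + (cs θ (fa f b) q (x₀ + q • z) +
      cs θ (fa f b') q (x₀ + q • z)) = (u (z + θ) + cs θ (fa f b) q (x₀ + q • z)) +
      (u' (z + θ) + cs θ (fa f b') q (x₀ + q • z)) := by abel
  rw [e, hz, hz']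
  abel

theorem rs_neg {θ : T r} {f : T r → T s} {p q : ℕ} {x₀ : T r} {a b : Fin s → ℤ}
    {u : T r → U} (h : Rs θ (fa f a) (fa f b) p q x₀ u) :
    Rs θ (fa f (-a)) (fa f (-b)) p q x₀ (fun z => -u z) := by
  refine ⟨h.1.neg, ?_⟩
  filter_upwards [h.2] with z hz
  rw [cs_fa_neg, cs_fa_neg, ← neg_add, hz]
  abel

/-- the second index is determined by the first one and conversely -/
theorem rs_uniq (hP : ST_PUR5) {θ : T r} {f : T r → T s} (hθ : Ind θ) (hf : Continuous f)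
    (hN : N0 θ f) {p q : ℕ} (hp : 1 ≤ p) (hq : 1 ≤ q) {x₀ : T r} {a b a' b' : Fin s → ℤ}
    {u u' : T r → U} (h : Rs θ (fa f a) (fa f b) p q x₀ u)
    (h' : Rs θ (fa f a') (fa f b') p q x₀ u') : a = a' ↔ b = b' := by
  have h1 := hP r s θ f hθ hf hN p q x₀ _ _ _ hp hq (rs_add h (rs_neg h'))
  rw [← sub_eq_add_neg, ← sub_eq_add_neg, sub_eq_zero, sub_eq_zero] at h1
  exact h1

/-- two transfer functions of the same resonance differ by a constant -/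
theorem rs_const (hE : Pool.Agent.Helper40.JZ.ST_ERG) {θ : T r} {F F' : T r → U} (hθ : Ind θ)
    {p q : ℕ} {x₀ : T r} {u u' : T r → U} (h : Rs θ F F' p q x₀ u) (h' : Rs θ F F' p q x₀ u') :
    ∃ c : U, ∀ᵐ z ∂(mm r), u' z = c + u z := by
  obtain ⟨c, hc⟩ := (hE r θ hθ).2.1 (fun z => u' z - u z) (h'.1.sub h.1) (by
    filter_upwards [h.2, h'.2] with z hz hz'
    rw [eq_sub_of_add_eq hz, eq_sub_of_add_eq hz']
    abel)
  refine ⟨c, ?_⟩
  filter_upwards [hc] with z hz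
  rw [← hz, sub_add_cancel]

/-- the group of the resonances -/
def Ag (θ : T r) (f : T r → T s) (p q : ℕ) (x₀ : T r) : AddSubgroup (Fin s → ℤ) where
  carrier := {a | ∃ (b : Fin s → ℤ) (u : T r → U), Rs θ (fa f a) (fa f b) p q x₀ u}
  zero_mem' := ⟨0, _, rs_zero θ f p q x₀⟩
  add_mem' := by
    rintro a a' ⟨b, u, h⟩ ⟨b', u', h'⟩
    exact ⟨_, _, rs_add h h'⟩
  neg_mem' := by
    rintro a ⟨b, u, h⟩
    exact ⟨_, _, rs_neg h⟩

theorem ae_push {g : T r → T r} (hg : MeasurePreserving g (mm r) (mm r)) {P : T r → Prop}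
    (hP : MeasurableSet {x | P x}) (h : ∀ᵐ z ∂(mm r), P (g z)) : ∀ᵐ x ∂(mm r), P x := by
  rw [← hg.map_eq]
  exact (ae_map_iff hg.measurable.aemeasurable hP).2 h

theorem res_type (hP : ST_PUR5) (hK : ST_KUR) (hL : ST_LFR5)
    (hE : Pool.Agent.Helper40.JZ.ST_ERG) (hM : Pool.Agent.Helper40.JZ.ST_MPZ)
    (hT : Pool.Agent.Helper40.JZ.ST_TOR) {θ : T r} {f : T r → T s} (hθ : Ind θ)
    (hf : Continuous f) (hN : N0 θ f) {p q : ℕ} (x₀ : T r) (hp : p.Prime) (hq : q.Prime)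
    (hpq : p ≠ q) : ∃ t : TY r s, OK θ f q t ∧
      ∀ (a b : Fin s → ℤ) (u : T r → U), Rs θ (fa f a) (fa f b) p q x₀ u →
      a ∈ t.1 ∧ ∀ σ ∈ tor r q, ∀ᵐ z ∂(mm r), u (z + σ) = t.2 a (p • σ) (x₀ + p • z) + u z := by
  have h1 : ∀ a : Fin s → ℤ, ∃ D : T r → T r → U, ∀ (b : Fin s → ℤ) (u : T r → U),
      Rs θ (fa f a) (fa f b) p q x₀ u → Lift θ (fa f a) q 1 D ∧
        ∀ σ ∈ tor r q, ∀ᵐ z ∂(mm r), u (z + σ) = D (p • σ) (x₀ + p • z) + u z := by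
    intro a
    by_cases h : ∃ (b : Fin s → ℤ) (u : T r → U), Rs θ (fa f a) (fa f b) p q x₀ u
    · obtain ⟨b₀, u₀, h₀⟩ := h
      obtain ⟨D, hD, hD2⟩ := hL r θ (fa f a) (fa f b₀) hθ (continuous_fa hf a)
        (continuous_fa hf b₀) p q x₀ u₀ hp hq hpq h₀
      refine ⟨D, fun b u hu => ⟨hD, fun σ hσ => ?_⟩⟩
      have hb : b₀ = b := (rs_uniq hP hθ hf hN hp.one_le hq.one_le h₀ hu).1 rfl
      subst hb
      obtain ⟨c, hc⟩ := rs_const hE hθ h₀ hu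
      filter_upwards [hc, Pool.Agent.Helper40.JZ.pow_shift hc σ, hD2 σ hσ] with z e1 e2 e3
      rw [e1, e2, e3]
      abel
    · exact ⟨fun _ _ => 0, fun b u hu => absurd ⟨b, u, hu⟩ h⟩
  choose D hD using h1
  refine ⟨(Ag θ f p q x₀, D), ⟨?_, ?_, ?_⟩, fun a b u hu => ⟨⟨b, u, hu⟩, (hD a b u hu).2⟩⟩
  · rintro a ⟨b, u, hu⟩
    exact (hD a b u hu).1
  · rintro a ⟨a', u, hu⟩ b ⟨b', v, hv⟩ σ hσ
    obtain ⟨-, -, -, -, h5⟩ := hT r q hq.one_le
    obtain ⟨σ', hσ', hps⟩ := h5 p ((Nat.coprime_primes hp hq).2 hpq) σ hσ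
    obtain ⟨k1, k2⟩ := hD _ _ _ hu
    obtain ⟨l1, l2⟩ := hD _ _ _ hv
    obtain ⟨m1, m2⟩ := hD _ _ _ (rs_add hu hv)
    refine ae_push ((hM r p hp.one_le).1 x₀) (measurableSet_eq_fun (m1.1 σ hσ)
      ((k1.1 σ hσ).add (l1.1 σ hσ))) ?_
    filter_upwards [k2 σ' hσ', l2 σ' hσ', m2 σ' hσ'] with z e1 e2 e3
    rw [hps] at e1 e2 e3
    show D (a + b) σ (x₀ + p • z) = D a σ (x₀ + p • z) + D b σ (x₀ + p • z)
    rw [e1, e2] at e3
    have e4 : D a σ (x₀ + p • z) + u z + (D b σ (x₀ + p • z) + v z) =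
        (D a σ (x₀ + p • z) + D b σ (x₀ + p • z)) + (u z + v z) := by abel
    rw [e4] at e3
    exact (add_right_cancel e3).symm
  · rintro a ⟨b, u, hu⟩ hk
    exact hK r s θ f hθ hf hN p q x₀ a b u hp hq hpq hu hk

end Pool.Agent.Helper60.K5
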