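import Pool.Agent.Helper60.K5.RESa
import Pool.Agent.Helper60.K5.EQA5

/-! Row RES5, part 2: functions with finitely many Fourier coefficients
(after helper2's proof of the row RES). -/

open Finset Filter MeasureTheory Topology
open scoped ComplexConjugate InnerProductSpace

namespace Pool.Agent.Helper60.K5

open Pool.Agent.Helper16.AZ (T E Op mm fc Ind)
open Pool.Agent.Helper16.BZ (EQ aeq_int aeq_zero)
open Pool.Agent.Helper40.DZ (RI UR SK Good3 ST_RIS ST_EQR)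
open Pool.Agent.Helper40.JZ (U cs tor Lift pj ms chi)
open Pool.Agent.Helper40.KZ
open Pool.Agent.Helper2.JZ (memLp_cont ms_nonneg)
open UnitAddTorus (mFourier)

variable {r s : ℕ}

theorem mf_orth (a b : Fin s → ℤ) :
    ∫ k, (mFourier (-a) k : ℂ) * mFourier b k ∂(mm s) = if a = b then 1 else 0 := by
  have e : ∀ k : T s, (mFourier (-a) k : ℂ) * mFourier b k = mFourier (b - a) k := by
    intro k
    rw [← UnitAddTorus.mFourier_add, neg_add_eq_sub]
  simp only [e]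
  split_ifs with h
  · subst h
    simp only [sub_self, aeq_zero]
    rw [integral_const, probReal_univ, one_smul]
  · exact aeq_int _ (sub_ne_zero.2 (Ne.symm h))

/-- functions with finitely many Fourier coefficients in the last coordinates -/
noncomputable def tp (A : Finset (Fin s → ℤ)) (g : (Fin s → ℤ) → T r → ℂ) (y : T (r + s)) : ℂ :=
  ∑ a ∈ A, g a (ini y) * mFourier a (las y)

theorem tp_cont {A : Finset (Fin s → ℤ)} {g : (Fin s → ℤ) → T r → ℂ}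
    (hg : ∀ a, Continuous (g a)) : Continuous (tp A g) := by
  unfold tp
  exact continuous_finsetSum _ fun a _ =>
    ((hg a).comp continuous_ini).mul ((mFourier a).continuous.comp continuous_las)

theorem fib_tp {A : Finset (Fin s → ℤ)} {g : (Fin s → ℤ) → T r → ℂ}
    (hg0 : ∀ a, a ∉ A → ∀ x, g a x = 0) (a : Fin s → ℤ) : fib (tp A g) a = g a := by
  funext x
  unfold fib tp
  simp only [ini_sn, las_sn]
  have e1 : ∀ k : T s, (mFourier (-a) k : ℂ) * ∑ b ∈ A, g b x * mFourier b k =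
      ∑ b ∈ A, g b x * ((mFourier (-a) k : ℂ) * mFourier b k) := by
    intro k
    rw [Finset.mul_sum]
    refine Finset.sum_congr rfl fun b _ => ?_
    ring
  simp only [e1]
  rw [integral_finsetSum]
  · simp only [integral_const_mul, mf_orth, mul_ite, mul_one, mul_zero]
    rw [Finset.sum_ite_eq]
    split_ifs with h
    · rfl
    · exact (hg0 a h x).symm
  · intro b _
    refine Integrable.const_mul ?_ _
    exact ((mFourier (-a)).continuous.mul
      (mFourier b).continuous).integrable_of_hasCompactSupport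
      (HasCompactSupport.of_compactSpace _)

theorem mf_split (X : Fin (r + s) → ℤ) (y : T (r + s)) : mFourier X y =
    mFourier (fun i : Fin r => X (Fin.castAdd s i)) (ini y) *
      mFourier (fun j : Fin s => X (Fin.natAdd r j)) (las y) := by
  conv_lhs => rw [← sn_ini_las y]
  exact mF_sn X (ini y) (las y)

/-- trigonometric polynomials are of this form -/
theorem tp_of (c : (Fin (r + s) → ℤ) →₀ ℂ) : ∃ (A : Finset (Fin s → ℤ))
    (g : (Fin s → ℤ) → T r → ℂ), (0 : Fin s → ℤ) ∈ A ∧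
    (∀ a, Continuous (g a)) ∧ (∀ a, a ∉ A → ∀ x, g a x = 0) ∧
    ∀ y, ∑ X ∈ c.support, c X * mFourier X y = tp A g y := by
  refine ⟨insert 0 (c.support.image fun X j => X (Fin.natAdd r j)), fun a x =>
    ∑ X ∈ c.support with (fun j => X (Fin.natAdd r j)) = a,
      c X * mFourier (fun i : Fin r => X (Fin.castAdd s i)) x,
    Finset.mem_insert_self _ _, fun a => ?_, fun a ha x => ?_, fun y => ?_⟩
  · exact continuous_finsetSum _ fun X _ => continuous_const.mul (mFourier _).continuous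
  · refine Finset.sum_eq_zero fun X hX => ?_
    exfalso
    apply ha
    rw [Finset.mem_filter] at hX
    rw [← hX.2]
    exact Finset.mem_insert_of_mem (Finset.mem_image_of_mem _ hX.1)
  · unfold tp
    rw [← Finset.sum_fiberwise_of_maps_to (g := fun (X : Fin (r + s) → ℤ) j => X (Fin.natAdd r j))
      (t := insert 0 (c.support.image fun X j => X (Fin.natAdd r j)))]
    · refine Finset.sum_congr rfl fun a _ => ?_
      rw [Finset.sum_mul]
      refine Finset.sum_congr rfl fun X hX => ?_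
      rw [Finset.mem_filter] at hX
      rw [mf_split, hX.2, mul_assoc]
    · intro X hX
      exact Finset.mem_insert_of_mem (Finset.mem_image_of_mem _ hX)

theorem int_tp (fibs : ST_FIB5) {A : Finset (Fin s → ℤ)} {g : (Fin s → ℤ) → T r → ℂ}
    (hg : ∀ a, Continuous (g a)) (hg0 : ∀ a, a ∉ A → ∀ x, g a x = 0) :
    ∫ y, tp A g y ∂(mm (r + s)) = ∫ x, g 0 x ∂(mm r) := by
  rw [((fibs r s).2 _ (memLp_cont (tp_cont hg))).2.2.1, fib_tp hg0]

/-- the mass for the trivial character -/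
theorem ms_zero_type {θ : T r} {f : T r → T s} {q : ℕ} {t : TY r s} (ht : OK θ f q t)
    (g : T r → ℂ) : ms q (t.2 0) 1 g = ms q (fun _ _ => 0) 0 g := by
  unfold ms
  have h1 : ∀ᵐ x ∂(mm r), ∀ σ ∈ tor r q, t.2 0 σ x = 0 := by
    rw [Filter.eventually_all_finset]
    exact fun σ hσ => Pool.Agent.Helper96.K5.lift_zero ht hσ
  refine integral_congr_ae ?_
  filter_upwards [h1] with x hx
  have e : pj q (t.2 0) 1 g x = pj q (fun _ _ => 0) 0 g x := by
    unfold pj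
    congr 1
    refine Finset.sum_congr rfl fun σ hσ => ?_
    rw [hx σ hσ]
    simp
  rw [e]

/-- the bound for one pair of functions -/
def Bd {r s : ℕ} (θ : T r) (f : T r → T s) (p q : ℕ) (y₀ : T (r + s)) (t t' : TY r s)
    (G G' : T (r + s) → ℂ) : Prop := ∀ ε : ℝ, 0 < ε → ∀ᶠ M : ℕ in atTop,
  ‖∑ n ∈ Icc 1 M, G ((SA θ f)^[p * n] y₀) * conj (G' ((SA θ f)^[q * n] y₀))‖ ≤
    (‖∫ y, G y ∂(mm (r + s))‖ * ‖∫ y, G' y ∂(mm (r + s))‖ +
      Real.sqrt (NT q t G - ‖∫ y, G y ∂(mm (r + s))‖ ^ 2) *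
      Real.sqrt (NT p t' G' - ‖∫ y, G' y ∂(mm (r + s))‖ ^ 2) + ε) * M

/-- the mass minus the square of the mean, on a finite set of characters -/
theorem sum_mass {B : AddSubgroup (Fin s → ℤ)} {m : (Fin s → ℤ) → ℝ} {I : ℝ} (h0 : ∀ a, 0 ≤ m a)
    (hs : Summable fun a : B => m (a : Fin s → ℤ)) {S : Finset (Fin s → ℤ)} (hS : 0 ∈ S)
    (hSB : ∀ a ∈ S, a ∈ B) : ∑ a ∈ S, (m a - if a = 0 then I ^ 2 else 0) ≤
      ∑' a : B, m (a : Fin s → ℤ) - I ^ 2 := by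
  classical
  rw [Finset.sum_sub_distrib, Finset.sum_ite_eq' S 0, if_pos hS]
  refine sub_le_sub_right ?_ _
  have e : ∑ a ∈ S.subtype (fun a => a ∈ B), m (a : Fin s → ℤ) = ∑ a ∈ S, m a :=
    Finset.sum_subtype_of_mem m hSB
  rw [← e]
  exact hs.sum_le_tsum _ fun a _ => h0 _

theorem bd_tp (hP : ST_PUR5) (prj : Pool.Agent.Helper40.JZ.ST_PRJ)
    (prb : Pool.Agent.Helper40.JZ.ST_PRB) (jtp : ST_JTP5) (fibs : ST_FIB5) (ntf : ST_NTF5)
    {θ : T r} {f : T r → T s} (hθ : Ind θ) (hf : Continuous f) (hN : N0 θ f) {p q : ℕ}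
    (hp : p.Prime) (hq : q.Prime) (hpq : p ≠ q) (y₀ : T (r + s)) {t t' : TY r s}
    (ht : OK θ f q t) (ht' : OK θ f p t')
    (h1 : ∀ (a b : Fin s → ℤ) (u : T r → U), Rs θ (fa f a) (fa f b) p q (ini y₀) u →
      a ∈ t.1 ∧ ∀ σ ∈ tor r q, ∀ᵐ z ∂(mm r),
        u (z + σ) = t.2 a (p • σ) (ini y₀ + p • z) + u z)
    (h2 : ∀ (a b : Fin s → ℤ) (u : T r → U), Rs θ (fa f a) (fa f b) q p (ini y₀) u →
      a ∈ t'.1 ∧ ∀ σ ∈ tor r p, ∀ᵐ z ∂(mm r),
        u (z + σ) = t'.2 a (q • σ) (ini y₀ + q • z) + u z)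
    {A A' : Finset (Fin s → ℤ)} {g g' : (Fin s → ℤ) → T r → ℂ} (hA : 0 ∈ A) (hA' : 0 ∈ A')
    (hg : ∀ a, Continuous (g a)) (hg' : ∀ a, Continuous (g' a))
    (hg0 : ∀ a, a ∉ A → ∀ x, g a x = 0) (hg0' : ∀ a, a ∉ A' → ∀ x, g' a x = 0) :
    Bd θ f p q y₀ t t' (tp A g) (tp A' g') := by
  classical
  intro ε hε
  set x₀ := ini y₀ with hx₀
  obtain ⟨R, hR⟩ : ∃ R : Finset ((Fin s → ℤ) × (Fin s → ℤ)), ∀ c, c ∈ R ↔ c ∈ A ×ˢ A' ∧
      ∃ u : T r → U, Rs θ (fa f c.1) (fa f c.2) p q x₀ u :=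
    ⟨(A ×ˢ A').filter fun c => ∃ u : T r → U, Rs θ (fa f c.1) (fa f c.2) p q x₀ u,
      fun c => Finset.mem_filter⟩
  have hw : ∀ a b : Fin s → ℤ, ∃ u : T r → U,
      ((∃ u' : T r → U, Rs θ (fa f a) (fa f b) p q x₀ u') → Rs θ (fa f a) (fa f b) p q x₀ u) ∧
      (a = 0 → b = 0 → u = fun _ => 0) := by
    intro a b
    by_cases h : a = 0 ∧ b = 0
    · obtain ⟨ha, hb⟩ := h
      subst ha hb
      exact ⟨fun _ => 0, fun _ => rs_zero θ f p q x₀, fun _ _ => rfl⟩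
    · by_cases h' : ∃ u' : T r → U, Rs θ (fa f a) (fa f b) p q x₀ u'
      · obtain ⟨u', hu'⟩ := h'
        exact ⟨u', fun _ => hu', fun ha hb => absurd ⟨ha, hb⟩ h⟩
      · exact ⟨fun _ => 0, fun h'' => absurd h'' h', fun ha hb => absurd ⟨ha, hb⟩ h⟩
  choose w hw1 hw2 using hw
  have h3 := jtp r s θ f hθ hf p q y₀ A A' g g' R w hp.one_le hq.one_le hg hg'
    (fun c hc => ((hR c).1 hc).1) (fun c hc => hw1 _ _ ((hR c).1 hc).2)
    (fun c hc hc2 u hu => hc2 ((hR c).2 ⟨hc, u, hu⟩)) ε hε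
  filter_upwards [h3] with M hM
  refine hM.trans (mul_le_mul_of_nonneg_right ?_ (Nat.cast_nonneg M))
  simp only [int_tp fibs hg hg0, int_tp fibs hg' hg0', NT, fib_tp hg0, fib_tp hg0']
  -- the masses
  obtain ⟨I, hI⟩ : ∃ I : ℝ, I = ‖∫ x, g 0 x ∂(mm r)‖ := ⟨_, rfl⟩
  obtain ⟨I', hI'⟩ : ∃ I : ℝ, I = ‖∫ x, g' 0 x ∂(mm r)‖ := ⟨_, rfl⟩
  rw [← hI, ← hI']
  obtain ⟨p1, p2⟩ := prb r p q x₀ (g 0) (g' 0) hp hq hpq (memLp_cont (hg 0))
    (memLp_cont (hg' 0))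
  have p3 := (prb r q p x₀ (g' 0) (g 0) hq hp hpq.symm (memLp_cont (hg' 0))
    (memLp_cont (hg 0))).1
  rw [← hI, ← hI'] at p2
  rw [← hI] at p1
  rw [← hI'] at p3
  have h0R : ((0 : Fin s → ℤ), (0 : Fin s → ℤ)) ∈ R :=
    (hR _).2 ⟨Finset.mem_product.2 ⟨hA, hA'⟩, _, rs_zero θ f p q x₀⟩
  have s1 : Summable fun a : t.1 => ms q (t.2 (a : Fin s → ℤ)) 1 (g (a : Fin s → ℤ)) := by
    have := (ntf r s θ f q t (tp A g) (tp A g) hq.one_le hf.measurable ht
      (memLp_cont (tp_cont hg)) (memLp_cont (tp_cont hg))).2.2.1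
    simpa only [fib_tp hg0] using this
  have s2 : Summable fun a : t'.1 => ms p (t'.2 (a : Fin s → ℤ)) 1 (g' (a : Fin s → ℤ)) := by
    have := (ntf r s θ f p t' (tp A' g') (tp A' g') hp.one_le hf.measurable ht'
      (memLp_cont (tp_cont hg')) (memLp_cont (tp_cont hg'))).2.2.1
    simpa only [fib_tp hg0'] using this
  obtain ⟨X, hX⟩ : ∃ X : (Fin s → ℤ) → ℝ, X = fun a => ms q (t.2 a) 1 (g a) -
    if a = 0 then I ^ 2 else 0 := ⟨_, rfl⟩
  obtain ⟨X', hX'⟩ : ∃ X : (Fin s → ℤ) → ℝ, X = fun a => ms p (t'.2 a) 1 (g' a) -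
    if a = 0 then I' ^ 2 else 0 := ⟨_, rfl⟩
  have x1 : ∀ a, 0 ≤ X a := by
    intro a
    rw [hX]
    by_cases ha : a = 0
    · subst ha
      simp only [if_true]
      rw [ms_zero_type ht]
      linarith
    · simp only [if_neg ha, sub_zero]
      exact ms_nonneg _ _ _ _
  have x2 : ∀ a, 0 ≤ X' a := by
    intro a
    rw [hX']
    by_cases ha : a = 0
    · subst ha
      simp only [if_true]
      rw [ms_zero_type ht']
      linarith
    · simp only [if_neg ha, sub_zero]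
      exact ms_nonneg _ _ _ _
  -- the projections of the set of resonances
  have i1 : ∀ c ∈ R, ∀ c' ∈ R, c.1 = c'.1 → c = c' := by
    intro c hc c' hc' e
    obtain ⟨-, u, hu⟩ := (hR c).1 hc
    obtain ⟨-, u', hu'⟩ := (hR c').1 hc'
    exact Prod.ext e ((rs_uniq hP hθ hf hN hp.one_le hq.one_le hu hu').1 e)
  have i2 : ∀ c ∈ R, ∀ c' ∈ R, c.2 = c'.2 → c = c' := by
    intro c hc c' hc' e
    obtain ⟨-, u, hu⟩ := (hR c).1 hc
    obtain ⟨-, u', hu'⟩ := (hR c').1 hc'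
    exact Prod.ext ((rs_uniq hP hθ hf hN hp.one_le hq.one_le hu hu').2 e) e
  have x3 : ∑ c ∈ R, X c.1 ≤ ∑' a : t.1, ms q (t.2 (a : Fin s → ℤ)) 1 (g (a : Fin s → ℤ)) -
      I ^ 2 := by
    rw [← Finset.sum_image (f := X) (g := Prod.fst) i1, hX]
    refine sum_mass (m := fun a => ms q (t.2 a) 1 (g a)) (fun a => ms_nonneg _ _ _ _) s1
      (Finset.mem_image.2 ⟨_, h0R, rfl⟩) ?_
    intro a ha
    obtain ⟨c, hc, e⟩ := Finset.mem_image.1 ha
    obtain ⟨-, u, hu⟩ := (hR c).1 hc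
    rw [← e]
    exact (h1 _ _ _ hu).1
  have x4 : ∑ c ∈ R, X' c.2 ≤ ∑' a : t'.1, ms p (t'.2 (a : Fin s → ℤ)) 1 (g' (a : Fin s → ℤ)) -
      I' ^ 2 := by
    rw [← Finset.sum_image (f := X') (g := Prod.snd) i2, hX']
    refine sum_mass (m := fun a => ms p (t'.2 a) 1 (g' a)) (fun a => ms_nonneg _ _ _ _) s2
      (Finset.mem_image.2 ⟨_, h0R, rfl⟩) ?_
    intro a ha
    obtain ⟨c, hc, e⟩ := Finset.mem_image.1 ha
    obtain ⟨-, u, hu⟩ := (hR c).1 hc
    rw [← e]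
    exact (h2 _ _ _ hu.symm).1
  have x5 : ∀ c ∈ R, ‖∫ z, fourier 1 (w c.1 c.2 z) * (g c.1 (x₀ + p • z) *
      conj (g' c.2 (x₀ + q • z))) ∂(mm r)‖ ≤
      (if c = 0 then I * I' else 0) + Real.sqrt (X c.1) * Real.sqrt (X' c.2) := by
    intro c hc
    obtain ⟨-, u, hu⟩ := (hR c).1 hc
    have hu1 := hw1 c.1 c.2 ⟨u, hu⟩
    have hz : c.1 = 0 ↔ c.2 = 0 := hP r s θ f hθ hf hN p q x₀ _ _ _ hp.one_le hq.one_le hu
    by_cases h0 : c.1 = 0
    · have h0' := hz.1 h0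
      have hc0 : c = 0 := Prod.ext h0 h0'
      subst hc0
      rw [hw2 _ _ h0 h0', hX, hX']
      simp only [if_true, Prod.fst_zero, Prod.snd_zero, ms_zero_type ht, ms_zero_type ht']
      have e : ∀ z : T r, (fourier 1 (0 : U) : ℂ) * (g 0 (x₀ + p • z) *
          conj (g' 0 (x₀ + q • z))) = g 0 (x₀ + p • z) * conj (g' 0 (x₀ + q • z)) := by
        intro z
        simp
      simp only [e]
      exact p2
    · have hc0 : c ≠ 0 := fun h => h0 (by rw [h]; rfl)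
      have h0' : c.2 ≠ 0 := fun h => h0 (hz.2 h)
      rw [hX, hX']
      simp only [if_neg hc0, if_neg h0, if_neg h0', sub_zero, zero_add]
      obtain ⟨k1, k2⟩ := h1 _ _ _ hu1
      obtain ⟨l1, l2⟩ := h2 _ _ _ hu1.symm
      exact prj r p q x₀ (w c.1 c.2) (t.2 c.1) (t'.2 c.2) 1 _ _ hp hq hpq hu1.1
        (ht.1 _ k1).1 k2 (ht'.1 _ l1).1 l2 (memLp_cont (hg _)) (memLp_cont (hg' _))
  have x6 := Finset.sum_le_sum x5
  rw [Finset.sum_add_distrib, Finset.sum_ite_eq' R 0,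
    if_pos (show (0 : (Fin s → ℤ) × (Fin s → ℤ)) ∈ R from h0R)] at x6
  have x7 : ∑ c ∈ R, Real.sqrt (X c.1) * Real.sqrt (X' c.2) ≤
      Real.sqrt (∑' a : t.1, ms q (t.2 (a : Fin s → ℤ)) 1 (g (a : Fin s → ℤ)) - I ^ 2) *
      Real.sqrt (∑' a : t'.1, ms p (t'.2 (a : Fin s → ℤ)) 1 (g' (a : Fin s → ℤ)) - I' ^ 2) := by
    refine (Real.sum_sqrt_mul_sqrt_le R (fun c => x1 c.1) (fun c => x2 c.2)).trans ?_
    exact mul_le_mul (Real.sqrt_le_sqrt x3) (Real.sqrt_le_sqrt x4) (Real.sqrt_nonneg _)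
      (Real.sqrt_nonneg _)
  linarith

end Pool.Agent.Helper60.K5
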